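import Pool.Agent.V1127.Sf.SchM

/-!
# MP_6c077c_gt, Q1: balls whose parametrization, or its inverse, is near each interior point smooth
# of corank at most one

Q1 asks whether every smooth 3-sphere in `S⁴` is unknotted. By Freedman both sides of such a sphere
are homeomorphic to the 4-ball. The theorem: the smooth 3-sphere `Γ(S³)` in `ℝ⁴` is unknotted if
its inside (or, in the one-point compactification, one of its sides) has a parametrization
`H : closed ball → ℝ⁴` which is smooth up to the boundary and near each interior point is smooth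
with derivatives of rank at least 3 or has an inverse which is smooth with derivatives of rank at
least 3. So in one direction `H` may look like `t ↦ t³` at some points and like `t ↦ t^(1/3)` at
others; neither `H` nor its inverse need be differentiable, and there is no condition on the normal
derivative of `H` along the sphere.

The method: first `H` is made nondegenerate along the sphere, with the same image; then the points
where `H` is singular and smooth and the points where its inverse is singular and smooth are
separated by open sets, and the first kind is removed for `H`, the second for the inverse.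
-/

set_option autoImplicit false

open Set Filter Topology Metric Function
open scoped ContDiff

namespace Pool.Agent.Results.MP_6c077c_gt.EitherDirection

/-- `ℝ⁴` -/
abbrev R4 : Type := EuclideanSpace ℝ (Fin 4)

/-- `H` is smooth near `x` -/
def SmoothNear (H : R4 → R4) (x : R4) : Prop := ∀ᶠ y in 𝓝 x, ContDiffAt ℝ ∞ H y

/-- `H` is a local diffeomorphism at `x`: smooth near `x`, with bijective derivative at `x` -/
def LocDiff (H : R4 → R4) (x : R4) : Prop := SmoothNear H x ∧ Bijective (fderiv ℝ H x)

/-- the linear map `L` has rank at least 3: composed with some linear map it is onto `ℝ³` -/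
def RankAtLeastThree (L : R4 →L[ℝ] R4) : Prop :=
  ∃ P : R4 →L[ℝ] EuclideanSpace ℝ (Fin 3), Surjective (fun v => P (L v))

/-- `H` is smooth at `y`, with derivative of rank at least 3 -/
def RankThree (H : R4 → R4) (y : R4) : Prop :=
  ContDiffAt ℝ ∞ H y ∧ RankAtLeastThree (fderiv ℝ H y)

/-- `H` is smooth of rank at least 3 at all points near `x` -/
def Forward (H : R4 → R4) (x : R4) : Prop := ∀ᶠ y in 𝓝 x, RankThree H y

/-- `H` has a local inverse `k` at `x` which is smooth of rank at least 3 at all points near
`H x` -/
def Backward (H : R4 → R4) (x : R4) : Prop :=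
  ∃ k : R4 → R4, (∀ᶠ y in 𝓝 x, k (H y) = y) ∧ ∀ᶠ z in 𝓝 (H x), RankThree k z

/-- `G` is a diffeomorphism of `ℝ⁴`, equal to a linear isometry outside a compact set (so it extends
to a diffeomorphism of `S⁴`) -/
def StandardAtInfinity (G : R4 → R4) : Prop :=
  ContDiff ℝ ∞ G ∧ (∃ K : R4 → R4, ContDiff ℝ ∞ K ∧ LeftInverse K G ∧ RightInverse K G) ∧
    ∃ (O : R4 ≃ₗᵢ[ℝ] R4) (R : ℝ), ∀ x, R ≤ ‖x‖ → G x = O x

theorem RankAtLeastThree.le {L : R4 →L[ℝ] R4} (h : RankAtLeastThree L) :
    3 ≤ Module.finrank ℝ (LinearMap.range L.toLinearMap) := by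
  obtain ⟨P, hP⟩ := h
  have h4 : Surjective (P.toLinearMap ∘ₗ (LinearMap.range L.toLinearMap).subtype) := by
    intro w
    obtain ⟨v, hv⟩ := hP w
    exact ⟨⟨_, LinearMap.mem_range_self _ v⟩, hv⟩
  have h5 := LinearMap.finrank_le_finrank_of_surjective h4
  rwa [finrank_euclideanSpace, Fintype.card_fin] at h5

theorem gd_of {H : R4 → R4} {x : R4} (h : ∀ᶠ y in 𝓝 x, RankThree H y) :
    Pool.Agent.V1127.Iso.Gd 3 H x := by
  filter_upwards [h] with y hy
  refine ⟨hy.1.contMDiffAt, ?_⟩
  rw [mfderiv_eq_fderiv]
  exact hy.2.le

/-- Let `Γ` be a local diffeomorphism at the points of the unit sphere and `H` a continuous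
injective map of the closed unit ball, equal to `Γ` on the unit sphere, smooth near the points of
the unit sphere, and such that near each interior point `H` is smooth of rank at least 3 or has an
inverse which is smooth of rank at least 3. Then the 3-sphere `Γ(S³)` is unknotted. -/
theorem result (Γ H : R4 → R4) (hΓ : ∀ x, ‖x‖ = 1 → LocDiff Γ x)
    (hH : ∀ x, ‖x‖ = 1 → H x = Γ x) (hc : ContinuousOn H (closedBall 0 1))
    (hi : InjOn H (closedBall 0 1)) (hs : ∀ x, ‖x‖ = 1 → SmoothNear H x)
    (h : ∀ x, ‖x‖ < 1 → Forward H x ∨ Backward H x) :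
    ∃ G : R4 → R4, StandardAtInfinity G ∧ (∀ x, ‖x‖ = 1 → G x = Γ x) ∧
      G '' closedBall 0 1 = H '' closedBall 0 1 := by
  obtain ⟨G, O, R, hb, hL, h1, h2, h3⟩ := Pool.Agent.V1127.Sf.sfM 3 (by norm_num) Γ H
    (fun x hx => Pool.Agent.Y522.LD_of_bij (hΓ x hx).1 (hΓ x hx).2) hc hi hH hs
    (fun x hx => (h x hx).imp gd_of fun ⟨k, k1, k2⟩ => ⟨k, k1, gd_of k2⟩)
  obtain ⟨hG, hK⟩ := Pool.Agent.Y522.smooth_inverse hb hL
  exact ⟨G, ⟨hG, hK, O, R, h3⟩, fun x hx => (h1 x hx).trans (hH x hx), h2⟩

end Pool.Agent.Results.MP_6c077c_gt.EitherDirection
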