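import Pool.Agent.V1127.Sf.Sch

/-!
# MP_6c077c_gt, Q1: smooth Schoenflies for balls with three smooth coordinates, up to the sphere

A smooth 3-sphere in `ℝ⁴` (so in `S⁴`) is the image of the unit sphere under a map `Γ` which is a
local diffeomorphism at the points of the unit sphere. Let `H` be a parametrization of the
topological ball which it bounds: `H` is continuous and injective on the closed unit ball and equal
to `Γ` on the unit sphere. Assume that `H` is smooth near the points of the unit sphere, and that at
every interior point `H` is a local diffeomorphism or three linear coordinates of `H` are smooth and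
independent. Then the sphere is unknotted: some diffeomorphism of `ℝ⁴`, a linear isometry outside a
compact set, agrees with `Γ` on the unit sphere and maps the closed unit ball onto the ball bounded
by the sphere.

In the starting result `ThreeCoordinates` the map `H` itself has to be a local diffeomorphism near
the unit sphere. Here its normal derivative may vanish (to any order, or be tangential) anywhere on
the unit sphere, and the critical points of `H` may accumulate there.

The method: `G = Γ⁻¹ ∘ H` is the identity on the unit sphere and maps the inner side to one side. Its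
direction `G / |G|` together with the norm of the argument is a diffeomorphism `Θ` near the unit
sphere, in the coordinates `Θ` the map `G` is radial and strictly increasing along the rays, and
adding a small multiple of `|x| - 1`, cut off by a function of `|G|`, makes it a diffeomorphism near
the unit sphere without changing the image.
-/

set_option autoImplicit false

open Set Filter Topology Metric Function
open scoped ContDiff

namespace Pool.Agent.Results.MP_6c077c_gt.SmoothUpToTheSphere

/-- `ℝ⁴` -/
abbrev R4 : Type := EuclideanSpace ℝ (Fin 4)

/-- `H` is smooth near `x` -/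
def SmoothNear (H : R4 → R4) (x : R4) : Prop := ∀ᶠ y in 𝓝 x, ContDiffAt ℝ ∞ H y

/-- `H` is a local diffeomorphism at `x`: smooth near `x`, with bijective derivative at `x` -/
def LocDiff (H : R4 → R4) (x : R4) : Prop := SmoothNear H x ∧ Bijective (fderiv ℝ H x)

/-- three linear coordinates of `H` are smooth near `x`, with independent differentials at `x` -/
def ThreeSmooth (H : R4 → R4) (x : R4) : Prop :=
  ∃ P : R4 →L[ℝ] EuclideanSpace ℝ (Fin 3),
    (∀ᶠ y in 𝓝 x, ContDiffAt ℝ ∞ (fun y => P (H y)) y) ∧
      Surjective (fderiv ℝ (fun y => P (H y)) x)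

/-- `G` is a diffeomorphism of `ℝ⁴`, equal to a linear isometry outside a compact set (so it extends
to a diffeomorphism of `S⁴`) -/
def StandardAtInfinity (G : R4 → R4) : Prop :=
  ContDiff ℝ ∞ G ∧ (∃ K : R4 → R4, ContDiff ℝ ∞ K ∧ LeftInverse K G ∧ RightInverse K G) ∧
    ∃ (O : R4 ≃ₗᵢ[ℝ] R4) (R : ℝ), ∀ x, R ≤ ‖x‖ → G x = O x

/-- Let `Γ` be a local diffeomorphism at the points of the unit sphere and `H` a continuous
injective map of the closed unit ball, equal to `Γ` on the unit sphere, smooth near the points of
the unit sphere, and at each interior point a local diffeomorphism or with three smooth independent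
linear coordinates. Then the 3-sphere `Γ(S³)` is unknotted. -/
theorem result (Γ H : R4 → R4) (hΓ : ∀ x, ‖x‖ = 1 → LocDiff Γ x)
    (hH : ∀ x, ‖x‖ = 1 → H x = Γ x) (hc : ContinuousOn H (closedBall 0 1))
    (hi : InjOn H (closedBall 0 1)) (hs : ∀ x, ‖x‖ = 1 → SmoothNear H x)
    (h : ∀ x, ‖x‖ < 1 → LocDiff H x ∨ ThreeSmooth H x) :
    ∃ G : R4 → R4, StandardAtInfinity G ∧ (∀ x, ‖x‖ = 1 → G x = Γ x) ∧
      G '' closedBall 0 1 = H '' closedBall 0 1 := by
  obtain ⟨G, O, R, hb, hL, h1, h2, h3⟩ := Pool.Agent.V1127.Sf.sf 3 (by norm_num) Γ H
    (fun x hx => Pool.Agent.Y522.LD_of_bij (hΓ x hx).1 (hΓ x hx).2) hc hi hH hs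
    (fun x hx => by
      rcases h x hx with h' | h'
      · exact Or.inl (Pool.Agent.Y522.LD_of_bij h'.1 h'.2)
      · exact Or.inr h')
  obtain ⟨hG, hK⟩ := Pool.Agent.Y522.smooth_inverse hb hL
  exact ⟨G, ⟨hG, hK, O, R, h3⟩, fun x hx => (h1 x hx).trans (hH x hx), h2⟩

end Pool.Agent.Results.MP_6c077c_gt.SmoothUpToTheSphere
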